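import Pool.Agent.Q119.FI.Sys
import Pool.Agent.H507R3.RamAll

set_option autoImplicit false

open Finset

namespace Q119.FI

/-- the `p`-subsets of `Fin r` -/
abbrev KK (r p : ℕ) : Type := {x : Finset (Fin r) // x.card = p}

section perm

variable {r p : ℕ}

lemma exists_perm (x y : Finset (Fin r)) (h : x.card = y.card) :
    ∃ π : Equiv.Perm (Fin r), x.image π = y := by
  classical
  have e : {i // i ∈ x} ≃ {i // i ∈ y} := Fintype.equivOfCardEq (by simpa using h)
  refine ⟨e.extendSubtype, ?_⟩
  apply Finset.eq_of_subset_of_card_le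
  · intro j hj
    obtain ⟨i, hi, rfl⟩ := Finset.mem_image.1 hj
    exact e.extendSubtype_mem i hi
  · rw [Finset.card_image_of_injective _ (Equiv.injective _), h]

lemma image_card (x : Finset (Fin r)) (π : Equiv.Perm (Fin r)) :
    (x.image π).card = x.card := Finset.card_image_of_injective _ π.injective

lemma count_eq (x y y' : Finset (Fin r)) (h : y.card = y'.card) :
    (Finset.univ.filter (fun π : Equiv.Perm (Fin r) => x.image π = y)).card =
      (Finset.univ.filter (fun π : Equiv.Perm (Fin r) => x.image π = y')).card := by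
  classical
  obtain ⟨ρ, hρ⟩ := exists_perm y y' h
  apply Finset.card_bij (fun π _ => ρ * π)
  · intro π hπ
    simp only [Finset.mem_filter, Finset.mem_univ, true_and] at hπ ⊢
    rw [← hρ, ← hπ, Finset.image_image]
    rfl
  · intro a _ b _ hab
    exact mul_left_cancel hab
  · intro π hπ
    simp only [Finset.mem_filter, Finset.mem_univ, true_and] at hπ
    refine ⟨ρ⁻¹ * π, ?_, by simp⟩
    simp only [Finset.mem_filter, Finset.mem_univ, true_and]
    have h1 : x.image (ρ⁻¹ * π : Equiv.Perm (Fin r)) = (x.image π).image (ρ⁻¹ : Equiv.Perm (Fin r)) := by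
      rw [Finset.image_image]
      rfl
    rw [h1, hπ, ← hρ, Finset.image_image]
    have h2 : ((ρ⁻¹ : Equiv.Perm (Fin r)) ∘ ρ : Fin r → Fin r) = id := by
      funext i
      simp
    rw [h2, Finset.image_id]

lemma count_mul (x y : KK r p) :
    Fintype.card (KK r p) *
      (Finset.univ.filter (fun π : Equiv.Perm (Fin r) => x.1.image π = y.1)).card =
      Fintype.card (Equiv.Perm (Fin r)) := by
  classical
  have h1 : ∑ z : KK r p,
      (Finset.univ.filter (fun π : Equiv.Perm (Fin r) => x.1.image π = z.1)).card =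
      Fintype.card (Equiv.Perm (Fin r)) := by
    rw [← Finset.card_univ (α := Equiv.Perm (Fin r))]
    rw [Finset.card_eq_sum_card_fiberwise (f := fun π : Equiv.Perm (Fin r) =>
      (⟨x.1.image π, by rw [image_card, x.2]⟩ : KK r p)) (t := Finset.univ)
      (fun _ _ => Finset.mem_coe.2 (Finset.mem_univ _))]
    apply Finset.sum_congr rfl
    intro z _
    congr 1
    ext π
    simp only [Finset.mem_filter, Finset.mem_univ, true_and]
    exact ⟨fun h => Subtype.ext h, fun h => congrArg Subtype.val h⟩
  rw [← h1]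
  rw [Finset.sum_congr rfl (fun z _ => count_eq x.1 z.1 y.1 (by rw [z.2, y.2]))]
  rw [Finset.sum_const, Finset.card_univ, smul_eq_mul]

/-- if `f` fixes no intersection, then every permutation agrees with `f` somewhere -/
theorem perm_hits (f : KK r p → KK r p)
    (hf : ∀ x y, x ≠ y → ((f x).1 ∩ (f y).1).card ≠ (x.1 ∩ y.1).card)
    (hne : Nonempty (KK r p)) (π : Equiv.Perm (Fin r)) : ∃ x : KK r p, x.1.image π = (f x).1 := by
  classical
  let E : KK r p → Finset (Equiv.Perm (Fin r)) := fun x =>
    Finset.univ.filter (fun π => x.1.image π = (f x).1)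
  have hdisj : ∀ x ∈ (Finset.univ : Finset (KK r p)), ∀ y ∈ (Finset.univ : Finset (KK r p)),
      x ≠ y → Disjoint (E x) (E y) := by
    intro x _ y _ hxy
    rw [Finset.disjoint_left]
    intro σ h1 h2
    simp only [E, Finset.mem_filter, Finset.mem_univ, true_and] at h1 h2
    apply hf x y hxy
    rw [← h1, ← h2, ← Finset.image_inter _ _ σ.injective, image_card]
  have hcard : (Finset.univ.biUnion E).card = Fintype.card (Equiv.Perm (Fin r)) := by
    rw [Finset.card_biUnion hdisj]
    have hpos : 0 < Fintype.card (KK r p) := Fintype.card_pos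
    apply Nat.eq_of_mul_eq_mul_left hpos
    rw [Finset.mul_sum]
    rw [Finset.sum_congr rfl (fun x _ => count_mul x (f x))]
    rw [Finset.sum_const, Finset.card_univ, smul_eq_mul]
  have huniv : Finset.univ.biUnion E = Finset.univ := Finset.eq_univ_of_card _ hcard
  have hπ : π ∈ Finset.univ.biUnion E := by
    rw [huniv]
    exact Finset.mem_univ π
  obtain ⟨x, _, hx⟩ := Finset.mem_biUnion.1 hπ
  simp only [E, Finset.mem_filter, Finset.mem_univ, true_and] at hx
  exact ⟨x, hx⟩

end perm

section main

open Classical in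
/-- a transversal as a set of vertices -/
noncomputable def tr {N : ℕ} {X : Fin N → Type} (a : Finset (Fin N)) (x : ∀ i, X i) :
    Finset (Σ i, X i) := a.image (fun i => ⟨i, x i⟩)

lemma mem_tr {N : ℕ} {X : Fin N → Type} (a : Finset (Fin N)) (x : ∀ i, X i) (v : Σ i, X i) :
    v ∈ tr a x ↔ v.1 ∈ a ∧ v.2 = x v.1 := by
  classical
  unfold tr
  rw [Finset.mem_image]
  constructor
  · rintro ⟨i, hi, rfl⟩
    exact ⟨hi, rfl⟩
  · obtain ⟨i, z⟩ := v
    rintro ⟨h1, h2⟩
    simp only at h1 h2
    exact ⟨i, h1, by rw [h2]⟩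

lemma tr_card {N : ℕ} {X : Fin N → Type} (a : Finset (Fin N)) (x : ∀ i, X i) :
    (tr a x).card = a.card := by
  classical
  unfold tr
  apply Finset.card_image_of_injective
  intro i j h
  exact (Sigma.mk.inj h).1

lemma tr_inj {N : ℕ} {X : Fin N → Type} {a b : Finset (Fin N)} {x y : ∀ i, X i}
    (h : tr a x = tr b y) : a = b ∧ ∀ i ∈ a, x i = y i := by
  have h1 : ∀ i, i ∈ a → i ∈ b ∧ x i = y i := by
    intro i hi
    have : (⟨i, x i⟩ : Σ i, X i) ∈ tr b y := by
      rw [← h, mem_tr]
      exact ⟨hi, rfl⟩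
    rw [mem_tr] at this
    exact this
  have h2 : ∀ i, i ∈ b → i ∈ a := by
    intro i hi
    have : (⟨i, y i⟩ : Σ i, X i) ∈ tr a x := by
      rw [h, mem_tr]
      exact ⟨hi, rfl⟩
    rw [mem_tr] at this
    exact this.1
  exact ⟨Finset.ext fun i => ⟨fun hi => (h1 i hi).1, h2 i⟩, fun i hi => (h1 i hi).2⟩

lemma tr_congr {N : ℕ} {X : Fin N → Type} {a : Finset (Fin N)} {x y : ∀ i, X i}
    (h : ∀ i ∈ a, x i = y i) : tr a x = tr a y := by
  ext v
  rw [mem_tr, mem_tr]
  constructor
  · rintro ⟨h1, h2⟩
    exact ⟨h1, by rw [h2, h _ h1]⟩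
  · rintro ⟨h1, h2⟩
    exact ⟨h1, by rw [h2, h _ h1]⟩

theorem main (p r : ℕ) (hp : 1 ≤ p) (f : KK r p → KK r p)
    (hnc : ∃ x y, f x ≠ f y)
    (hfix : ∀ x y, x ≠ y → ((f x).1 ∩ (f y).1).card ≠ (x.1 ∩ y.1).card) :
    ∃ (V : Type) (_ : Fintype V) (_ : DecidableEq V) (G : Finset (Finset V))
      (W : Finset V → KK r p), (∀ e ∈ G, e.card = r) ∧
      (∀ e ∈ G, ¬ ∃ k, ∀ A ⊆ e, A.card = p → W A = k) ∧
      (∀ k, ∃ A : Finset V, A.card = p ∧ W A = k) ∧
      ∀ D : Finset V → Fin r → V,
        (∀ e ∈ G, Function.Injective (D e) ∧ Finset.univ.image (D e) = e) →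
        ∃ A : Finset V, A.card = p ∧ ∀ I : Finset (Fin r), I.card = p →
          ∃ e ∈ G, I.image (D e) = A := by
  classical
  obtain ⟨k₀, k₁, hk01⟩ := hnc
  have hk01' : k₀ ≠ k₁ := fun h => hk01 (by rw [h])
  have : Nonempty (KK r p) := ⟨k₀⟩
  obtain ⟨N, hN⟩ := Pool.Agent.H507R3.RamAll.ramsey_finset (KK r p → KK r p) p r
  let P : Sys (Fin N) (KK r p) :=
    { X := fun _ => (Finset (Fin N) → KK r p)
      fin := fun _ => inferInstance
      W := fun a x => if h : a.Nonempty then x (a.min' h) a else k₀
      loc := by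
        intro a x y h
        split_ifs with h1
        · rw [h _ (a.min'_mem h1)]
        · rfl }
  have hPW : ∀ (a : Finset (Fin N)), a.card = p → ∀ h : Finset (Fin N) → KK r p,
      P.W a (fun _ => h) = h a := by
    intro a ha h
    have h1 : a.Nonempty := by
      rw [← Finset.card_pos, ha]
      exact hp
    show (if h : a.Nonempty then _ else _) = _
    rw [dif_pos h1]
  obtain ⟨Q, hQ⟩ := all_steps p P
  have hQfin : ∀ i, Finite (Q.X i) := Q.fin
  let V : Type := Σ i, Q.X i
  have hVfin : Finite V := inferInstance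
  let hVF : Fintype V := Fintype.ofFinite V
  let W : Finset V → KK r p := fun A =>
    pickval (fun q : Finset (Fin N) × (∀ i, Q.X i) => A = tr q.1 q.2)
      (fun q => Q.W q.1 q.2) k₀
  have hW : ∀ a x, W (tr a x) = Q.W a x := by
    intro a x
    refine pickval_eq (⟨(a, x), rfl⟩ :
      ∃ q : Finset (Fin N) × (∀ i, Q.X i), tr a x = tr q.1 q.2) ?_
    rintro ⟨b, y⟩ h
    obtain ⟨rfl, h2⟩ := tr_inj h
    exact (Q.loc _ _ _ h2).symm
  let G : Finset (Finset V) := Finset.univ.filter
    (fun e => e.card = r ∧ ¬ ∃ k, ∀ A ⊆ e, A.card = p → W A = k)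
  -- the key fact about colourings of the `p`-sets
  have key : ∀ w' : Finset V → KK r p, ∃ (g : KK r p → KK r p) (σ : Fin r ↪ Fin N)
      (F : (Finset (Fin N) → KK r p) → ∀ i, Q.X i),
      ∀ h : Finset (Fin N) → KK r p, ∀ I : Finset (Fin r), I.card = p →
        W (tr (I.map σ) (F h)) = h (I.map σ) ∧
        w' (tr (I.map σ) (F h)) = g (h (I.map σ)) := by
    intro w'
    obtain ⟨f0, hf0⟩ := hQ (fun a x => w' (tr a x)) (by
      intro a x y hxy
      show w' (tr a x) = w' (tr a y)
      rw [tr_congr hxy])
    have hf0' : ∀ a : Finset (Fin N), ∃ g : KK r p → KK r p, a.card = p → ∀ x,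
        w' (tr a (fun i => f0.f i (x i))) = g (P.W a x) := by
      intro a
      by_cases ha : a.card = p
      · obtain ⟨g, hg⟩ := hf0 a ha
        exact ⟨g, fun _ => hg⟩
      · exact ⟨id, fun h => absurd h ha⟩
    choose g hg using hf0'
    obtain ⟨T, hT, hTr, g0, hg0⟩ := hN (Finset.range N)
      (fun B => pickval (fun a : Finset (Fin N) => B = a.map Fin.valEmbedding) (fun a => g a) id)
      (by rw [Finset.card_range])
    let S : Finset (Fin N) := Finset.univ.filter (fun i => (i : ℕ) ∈ T)
    have hST : S.map Fin.valEmbedding = T := by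
      ext i
      simp only [S, Finset.mem_map, Finset.mem_filter, Finset.mem_univ, true_and,
        Fin.valEmbedding_apply]
      constructor
      · rintro ⟨j, hj, rfl⟩
        exact hj
      · intro hi
        exact ⟨⟨i, Finset.mem_range.1 (hT hi)⟩, hi, rfl⟩
    have hSr : S.card = r := by
      rw [← hTr, ← hST, Finset.card_map]
    have hgS : ∀ a ⊆ S, a.card = p → g a = g0 := by
      intro a ha hap
      have h1 := hg0 (a.map Fin.valEmbedding) (by
        rw [← hST]
        exact Finset.map_subset_map.2 ha) (by rw [Finset.card_map, hap])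
      beta_reduce at h1
      rw [← h1]
      symm
      refine pickval_eq (⟨a, rfl⟩ : ∃ b : Finset (Fin N),
        a.map Fin.valEmbedding = b.map Fin.valEmbedding) ?_
      intro b hb
      rw [Finset.map_injective _ hb]
    let σ : Fin r ↪ Fin N := (S.orderEmbOfFin hSr).toEmbedding
    have hσ : ∀ I : Finset (Fin r), I.map σ ⊆ S := by
      intro I i hi
      obtain ⟨j, _, rfl⟩ := Finset.mem_map.1 hi
      exact S.orderEmbOfFin_mem hSr j
    refine ⟨g0, σ, fun h i => f0.f i h, ?_⟩
    intro h I hI
    have hIc : (I.map σ).card = p := by rw [Finset.card_map, hI]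
    have h1 : P.W (I.map σ) (fun _ => h) = h (I.map σ) := hPW _ hIc h
    constructor
    · rw [hW, ← h1]
      exact f0.map _ hIc (fun _ => h)
    · rw [← hgS _ (hσ I) hIc, ← h1]
      exact hg _ hIc (fun _ => h)
  refine ⟨V, hVF, inferInstance, G, W, ?_, ?_, ?_, ?_⟩
  · intro e he
    simp only [G, Finset.mem_filter, Finset.mem_univ, true_and] at he
    exact he.1
  · intro e he
    simp only [G, Finset.mem_filter, Finset.mem_univ, true_and] at he
    exact he.2
  · intro k
    obtain ⟨g, σ, F, hF⟩ := key W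
    refine ⟨tr (k.1.map σ) (F (fun _ => k)), ?_, (hF _ k.1 k.2).1⟩
    rw [tr_card, Finset.card_map, k.2]
  · intro D hD
    by_contra hcon
    push Not at hcon
    -- the colouring given by the missing index set
    have hmiss : ∀ A : Finset V, ∃ I : KK r p, A.card = p → ∀ e ∈ G, I.1.image (D e) ≠ A := by
      intro A
      by_cases hA : A.card = p
      · obtain ⟨I, hI, hI2⟩ := hcon A hA
        exact ⟨⟨I, hI⟩, fun _ => hI2⟩
      · exact ⟨k₀, fun h => absurd h hA⟩
    choose w' hw' using hmiss
    obtain ⟨g, σ, F, hF⟩ := key w'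
    -- realise the pattern `u`
    have real : ∀ u : KK r p → KK r p, (∃ x y, u x ≠ u y) →
        ∃ (e : Finset V) (A : KK r p → Finset V) (π : Equiv.Perm (Fin r)), e ∈ G ∧
          (∀ I, (A I).card = p) ∧ (∀ I, w' (A I) = g (u I)) ∧
          ∀ I J : KK r p, I.1.image π = J.1 → I.1.image (D e) = A J := by
      intro u hu
      let h : Finset (Fin N) → KK r p := fun a =>
        pickval (fun I : KK r p => a = I.1.map σ) u k₀
      have hh : ∀ I : KK r p, h (I.1.map σ) = u I := by
        intro I
        refine pickval_eq (⟨I, rfl⟩ : ∃ J : KK r p, I.1.map σ = J.1.map σ) ?_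
        intro J hJ
        have : I = J := Subtype.ext (Finset.map_injective _ hJ)
        rw [this]
      let e : Finset V := tr (Finset.univ.map σ) (F h)
      let A : KK r p → Finset V := fun I => tr (I.1.map σ) (F h)
      have hAe : ∀ I, A I ⊆ e := by
        intro I v hv
        rw [mem_tr] at hv ⊢
        exact ⟨Finset.map_subset_map.2 (Finset.subset_univ _) hv.1, hv.2⟩
      have hAc : ∀ I, (A I).card = p := by
        intro I
        rw [tr_card, Finset.card_map, I.2]
      have hAW : ∀ I, W (A I) = u I := by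
        intro I
        rw [(hF h I.1 I.2).1, hh]
      have heG : e ∈ G := by
        simp only [G, Finset.mem_filter, Finset.mem_univ, true_and]
        refine ⟨?_, ?_⟩
        · rw [tr_card, Finset.card_map, Finset.card_univ, Fintype.card_fin]
        · rintro ⟨k, hk⟩
          obtain ⟨x, y, hxy⟩ := hu
          apply hxy
          rw [← hAW, ← hAW, hk _ (hAe x) (hAc x), hk _ (hAe y) (hAc y)]
      obtain ⟨hD1, hD2⟩ := hD e heG
      have hpi : ∀ j : Fin r, ∃ j' : Fin r, D e j = ⟨σ j', F h (σ j')⟩ := by
        intro j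
        have : D e j ∈ e := by
          have h9 := Finset.mem_image_of_mem (D e) (Finset.mem_univ j)
          rw [hD2] at h9
          exact h9
        rw [mem_tr] at this
        obtain ⟨h1, h2⟩ := this
        obtain ⟨j', _, hj'⟩ := Finset.mem_map.1 h1
        refine ⟨j', ?_⟩
        rw [hj']
        exact Sigma.ext rfl (heq_of_eq h2)
      choose π hπ using hpi
      have hπinj : Function.Injective π := by
        intro i j hij
        apply hD1
        rw [hπ i, hπ j, hij]
      let Pm : Equiv.Perm (Fin r) := Equiv.ofBijective π (Finite.injective_iff_bijective.1 hπinj)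
      refine ⟨e, A, Pm, heG, hAc, ?_, ?_⟩
      · intro I
        rw [(hF h I.1 I.2).2, hh]
      · intro I J hIJ
        ext v
        rw [mem_tr, Finset.mem_image]
        constructor
        · rintro ⟨i, hi, rfl⟩
          rw [hπ i]
          refine ⟨?_, rfl⟩
          rw [Finset.mem_map]
          refine ⟨π i, ?_, rfl⟩
          rw [← hIJ]
          exact Finset.mem_image_of_mem Pm hi
        · rintro ⟨h1, h2⟩
          obtain ⟨j, hj, hj'⟩ := Finset.mem_map.1 h1
          rw [← hIJ, Finset.mem_image] at hj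
          obtain ⟨i, hi, hij⟩ := hj
          refine ⟨i, hi, ?_⟩
          rw [hπ i]
          have h3 : π i = j := hij
          rw [h3, hj']
          exact Sigma.ext rfl (heq_of_eq h2.symm)
    by_cases hg : Function.Injective g
    · -- `g` is a bijection
      have hgs : Function.Surjective g := Finite.injective_iff_surjective.1 hg
      choose ginv hginv using hgs
      obtain ⟨e, A, π, he, hA1, hA2, hA3⟩ := real (fun I => ginv (f I)) (by
        refine ⟨k₀, k₁, ?_⟩
        intro h
        apply hk01
        rw [← hginv (f k₀), ← hginv (f k₁), h])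
      obtain ⟨x, hx⟩ := perm_hits f hfix ⟨k₀⟩ π⁻¹
      have hx' : (f x).1.image π = x.1 := by
        rw [← hx, Finset.image_image]
        have h2 : (π ∘ (π⁻¹ : Equiv.Perm (Fin r)) : Fin r → Fin r) = id := by
          funext i
          simp
        rw [h2, Finset.image_id]
      have h1 : w' (A x) = f x := by rw [hA2, hginv]
      have h2 := hA3 (f x) x hx'
      apply hw' (A x) (hA1 x) e he
      rw [h1, h2]
    · -- two colours are merged
      unfold Function.Injective at hg
      push Not at hg
      obtain ⟨c1, c2, hc, hc12⟩ := hg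
      obtain ⟨e, A, π, he, hA1, hA2, hA3⟩ := real (fun I => if I = k₀ then c1 else c2) (by
        refine ⟨k₀, k₁, ?_⟩
        rw [if_pos rfl, if_neg hk01'.symm]
        exact hc12)
      have hA2' : ∀ I, w' (A I) = g c1 := by
        intro I
        rw [hA2]
        split_ifs
        · rfl
        · exact hc.symm
      let x : KK r p := ⟨(g c1).1.image π, by rw [image_card, (g c1).2]⟩
      have h2 := hA3 (g c1) x rfl
      apply hw' (A x) (hA1 x) e he
      rw [hA2', h2]

end main

end Q119.FI
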