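import Mathlib

set_option autoImplicit false

open Finset

namespace Q119.FI

variable {I K : Type}

/-- a partite system: parts `X i`, and a colour for every transversal of a set of parts -/
structure Sys (I K : Type) where
  X : I → Type
  fin : ∀ i, Finite (X i)
  W : Finset I → (∀ i, X i) → K
  loc : ∀ a x y, (∀ i ∈ a, x i = y i) → W a x = W a y

/-- the colourings of transversals over `a` -/
def Local (X : I → Type) (a : Finset I) (w : (∀ i, X i) → K) : Prop :=
  ∀ x y, (∀ i ∈ a, x i = y i) → w x = w y

/-- morphisms, with respect to sets of `p` parts -/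
structure SHom (p : ℕ) (P Q : Sys I K) where
  f : ∀ i, P.X i → Q.X i
  inj : ∀ i, Function.Injective (f i)
  map : ∀ a : Finset I, a.card = p → ∀ x, Q.W a (fun i => f i (x i)) = P.W a x

def SHom.id (p : ℕ) (P : Sys I K) : SHom p P P where
  f := fun _ x => x
  inj := fun _ => Function.injective_id
  map := fun _ _ _ => rfl

def SHom.comp {p : ℕ} {P Q R : Sys I K} (g : SHom p Q R) (f : SHom p P Q) : SHom p P R where
  f := fun i x => g.f i (f.f i x)
  inj := fun i => (g.inj i).comp (f.inj i)
  map := fun a ha x => by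
    rw [g.map a ha (fun i => f.f i (x i)), f.map a ha]

open Classical in
noncomputable def pickval {A : Type} (pr : A → Prop) (val : A → K) (d : K) : K :=
  if h : ∃ q, pr q then val h.choose else d

lemma pickval_eq {A : Type} {pr : A → Prop} {val : A → K} {d v : K} (h : ∃ q, pr q)
    (hv : ∀ q, pr q → val q = v) : pickval pr val d = v := by
  unfold pickval
  rw [dif_pos h]
  exact hv _ h.choose_spec

lemma pickval_neg {A : Type} {pr : A → Prop} {val : A → K} {d : K} (h : ¬ ∃ q, pr q) :
    pickval pr val d = d := by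
  unfold pickval
  rw [dif_neg h]

section step

variable [DecidableEq I] (P : Sys I K) (a : Finset I) (k : K) (ι : Type)

abbrev Alph : Type := {x : ∀ i, P.X i // P.W a x = k}

/-- the parts of the new system -/
abbrev NX (i : I) : Type := (ι → P.X i) ⊕ ((ι → Option (Alph P a k)) × P.X i)

/-- the copy of `P` belonging to a template -/
def cp (l : ι → Option (Alph P a k)) (i : I) (z : P.X i) : NX P a k ι i :=
  if i ∈ a then Sum.inl (fun t => (l t).elim z (fun c => c.1 i)) else Sum.inr (l, z)

/-- reading off coordinates -/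
def rd (x : ∀ i, NX P a k ι i) (t : ι) (i : I) : P.X i :=
  match x i with
  | Sum.inl u => u t
  | Sum.inr q => q.2

/-- `x` agrees on `c` with a transversal of a copy -/
def Pr (c : Finset I) (x : ∀ i, NX P a k ι i)
    (q : (ι → Option (Alph P a k)) × (∀ i, P.X i)) : Prop :=
  (∃ t, q.1 t = none) ∧ ∀ i ∈ c, x i = cp P a k ι q.1 i (q.2 i)

noncomputable def NW (c : Finset I) (x : ∀ i, NX P a k ι i) : K :=
  if c = a then pickval (fun t => P.W a (rd P a k ι x t) ≠ k) (fun t => P.W a (rd P a k ι x t)) k
  else pickval (Pr P a k ι c x) (fun q => P.W c q.2) k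

lemma NW_loc (c : Finset I) (x y : ∀ i, NX P a k ι i) (h : ∀ i ∈ c, x i = y i) :
    NW P a k ι c x = NW P a k ι c y := by
  classical
  unfold NW
  split_ifs with hc
  · subst hc
    have h1 : (fun t => P.W c (rd P c k ι x t)) = (fun t => P.W c (rd P c k ι y t)) := by
      funext t
      apply P.loc
      intro i hi
      unfold rd
      rw [h i hi]
    have h2 : (fun t => P.W c (rd P c k ι x t) ≠ k) = (fun t => P.W c (rd P c k ι y t) ≠ k) := by
      funext t
      rw [congrFun h1 t]
    rw [h1, h2]
  · have h1 : Pr P a k ι c x = Pr P a k ι c y := by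
      funext q
      apply propext
      constructor
      · rintro ⟨h1, h2⟩
        exact ⟨h1, fun i hi => by rw [← h i hi, h2 i hi]⟩
      · rintro ⟨h1, h2⟩
        exact ⟨h1, fun i hi => by rw [h i hi, h2 i hi]⟩
    rw [h1]

variable {P a k ι}

lemma cp_inj {l : ι → Option (Alph P a k)} (hl : ∃ t, l t = none) (i : I) :
    Function.Injective (cp P a k ι l i) := by
  intro z z' h
  unfold cp at h
  split_ifs at h with hi
  · obtain ⟨t, ht⟩ := hl
    have := congrFun (Sum.inl_injective h) t
    simpa [ht] using this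
  · exact (Prod.mk.inj (Sum.inr_injective h)).2

/-- the copy map is a morphism -/
lemma NW_cp {l : ι → Option (Alph P a k)} (hl : ∃ t, l t = none) (c : Finset I)
    (hc : c.card = a.card) (z : ∀ i, P.X i) :
    NW P a k ι c (fun i => cp P a k ι l i (z i)) = P.W c z := by
  classical
  unfold NW
  split_ifs with h
  · subst h
    have hnone : ∀ t, l t = none → P.W c (rd P c k ι (fun i => cp P c k ι l i (z i)) t) = P.W c z := by
      intro t ht
      apply P.loc
      intro i hi
      simp only [rd, cp, if_pos hi, ht, Option.elim_none]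
    have hsome : ∀ t, ∀ q, l t = some q →
        P.W c (rd P c k ι (fun i => cp P c k ι l i (z i)) t) = k := by
      intro t q ht
      refine Eq.trans ?_ q.2
      apply P.loc
      intro i hi
      simp only [rd, cp, if_pos hi, ht, Option.elim_some]
    by_cases h3 : ∃ t, P.W c (rd P c k ι (fun i => cp P c k ι l i (z i)) t) ≠ k
    · apply pickval_eq h3
      intro t ht
      rcases hlt : l t with _ | q
      · exact hnone _ hlt
      · exact absurd (hsome _ q hlt) ht
    · rw [pickval_neg h3]
      push Not at h3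
      obtain ⟨t, ht⟩ := hl
      rw [← hnone t ht]
      exact (h3 t).symm
  · apply pickval_eq ⟨(l, z), hl, fun _ _ => rfl⟩
    rintro ⟨l', z'⟩ ⟨hn, hz⟩
    simp only at hn hz ⊢
    -- there is an index outside `a`
    have hout : ∃ i ∈ c, i ∉ a := by
      by_contra hcon
      push Not at hcon
      exact h (Finset.eq_of_subset_of_card_le hcon hc.ge)
    obtain ⟨i, hic, hia⟩ := hout
    have h5 := hz i hic
    have hll : l = l' := by
      unfold cp at h5
      rw [if_neg hia, if_neg hia] at h5
      exact (Prod.mk.inj (Sum.inr_injective h5)).1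
    subst hll
    apply P.loc
    intro j hj
    exact (cp_inj hl j (hz j hj)).symm

end step

/-- **Partite lemma with amalgamation, for one set of parts and one colour.** -/
theorem one_step [Finite I] [Finite K] (p : ℕ) (P : Sys I K) (a : Finset I) (ha : a.card = p)
    (k : K) :
    ∃ Q : Sys I K, ∀ w : (∀ i, Q.X i) → K, Local Q.X a w →
      ∃ (f : SHom p P Q) (c : K), ∀ x, P.W a x = k → w (fun i => f.f i (x i)) = c := by
  classical
  have : ∀ i, Finite (P.X i) := P.fin
  obtain ⟨ι, hι, hHJ⟩ := Combinatorics.Line.exists_mono_in_high_dimension (Alph P a k) K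
  let Q : Sys I K :=
    { X := NX P a k ι
      fin := fun i => inferInstance
      W := NW P a k ι
      loc := NW_loc P a k ι }
  refine ⟨Q, ?_⟩
  intro w hw
  obtain ⟨l, c, hc⟩ := hHJ (fun y => w (fun i => Sum.inl (fun t => (y t).1 i)))
  have hl : ∃ t, l.idxFun t = none := l.proper
  refine ⟨⟨fun i => cp P a k ι l.idxFun i, fun i => cp_inj hl i,
    fun b hb x => NW_cp hl b (hb.trans ha.symm) x⟩, c, ?_⟩
  intro x hx
  rw [← hc ⟨x, hx⟩]
  apply hw
  intro i hi
  simp only [cp, if_pos hi]
  congr 1
  funext t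
  simp only [Combinatorics.Line.apply_def]
  rcases l.idxFun t with _ | q
  · rfl
  · rfl

/-- iteration over a list of pairs (set of parts, colour) -/
theorem many_steps [Finite I] [Finite K] (p : ℕ) (P : Sys I K) (L : List (Finset I × K))
    (hL : ∀ q ∈ L, q.1.card = p) :
    ∃ Q : Sys I K, ∀ w : Finset I → (∀ i, Q.X i) → K, (∀ a, Local Q.X a (w a)) →
      ∃ f : SHom p P Q, ∀ q ∈ L, ∃ c : K, ∀ x, P.W q.1 x = q.2 →
        w q.1 (fun i => f.f i (x i)) = c := by
  induction L with
  | nil => exact ⟨P, fun w _ => ⟨SHom.id p P, by simp⟩⟩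
  | cons q L ih =>
    obtain ⟨Q, hQ⟩ := ih (fun q hq => hL q (List.mem_cons_of_mem _ hq))
    have hqp : q.1.card = p := hL q List.mem_cons_self
    obtain ⟨Q', hQ'⟩ := one_step p Q q.1 hqp q.2
    refine ⟨Q', ?_⟩
    intro w hw
    obtain ⟨f1, c, hc⟩ := hQ' (w q.1) (hw q.1)
    obtain ⟨f2, hf2⟩ := hQ (fun a x => w a (fun i => f1.f i (x i))) (by
      intro a x y hxy
      apply hw a
      intro i hi
      rw [hxy i hi])
    refine ⟨f1.comp f2, ?_⟩
    intro q' hq'
    rcases List.mem_cons.1 hq' with rfl | hq'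
    · refine ⟨c, ?_⟩
      intro x hx
      apply hc (fun i => f2.f i (x i))
      rw [f2.map q'.1 hqp, hx]
    · obtain ⟨c', hc'⟩ := hf2 q' hq'
      exact ⟨c', hc'⟩

/-- all pairs at once -/
theorem all_steps [Finite I] [Finite K] (p : ℕ) (P : Sys I K) :
    ∃ Q : Sys I K, ∀ w : Finset I → (∀ i, Q.X i) → K, (∀ a, Local Q.X a (w a)) →
      ∃ f : SHom p P Q, ∀ a : Finset I, a.card = p → ∃ g : K → K, ∀ x,
        w a (fun i => f.f i (x i)) = g (P.W a x) := by
  classical
  have hfin : {q : Finset I × K | q.1.card = p}.Finite := Set.toFinite _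
  obtain ⟨Q, hQ⟩ := many_steps p P hfin.toFinset.toList (by
    intro q hq
    rw [Finset.mem_toList, Set.Finite.mem_toFinset] at hq
    exact hq)
  refine ⟨Q, fun w hw => ?_⟩
  obtain ⟨f, hf⟩ := hQ w hw
  refine ⟨f, fun a ha => ?_⟩
  have h1 : ∀ k : K, ∃ c : K, ∀ x, P.W a x = k → w a (fun i => f.f i (x i)) = c := by
    intro k
    apply hf (a, k)
    rw [Finset.mem_toList, Set.Finite.mem_toFinset]
    exact ha
  choose g hg using h1
  exact ⟨g, fun x => hg _ x rfl⟩

end Q119.FI
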